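import Pool.Agent.H36.ENR.Stmts2
import Pool.Agent.H81.ENG.AltLaw

set_option autoImplicit false
set_option linter.unusedVariables false

namespace Pool.ENR

open Pool.Agent.H81.ENG Pool.Agent.H55.NEU

theorem brp_eq {F : Type} [Field F] {M N : SL2 F} (r : F) (hr : r * r = 1)
    (h00 : N 0 0 = r * M 0 0) (h01 : N 0 1 = r * M 0 1) (h10 : N 1 0 = r * M 1 0)
    (h11 : N 1 1 = r * M 1 1) : pr M = pr N :=
  pr_eq_iff.mpr ⟨r, hr, fun i j => by fin_cases i <;> fin_cases j <;> assumption⟩

theorem brp_one00 {F : Type} [Field F] : (1 : SL2 F) 0 0 = 1 := rfl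
theorem brp_one01 {F : Type} [Field F] : (1 : SL2 F) 0 1 = 0 := rfl
theorem brp_one10 {F : Type} [Field F] : (1 : SL2 F) 1 0 = 0 := rfl
theorem brp_one11 {F : Type} [Field F] : (1 : SL2 F) 1 1 = 1 := rfl

/-- an element of trace one has projective order three -/
theorem brp_cube {F : Type} [Field F] (Z : SL2 F) (h : Z 0 0 + Z 1 1 = 1) : (pr Z) ^ 3 = 1 := by
  have hd := sl_det Z
  have e : (pr Z) ^ 3 = pr (Z * Z * Z) := by
    rw [map_mul, map_mul, pow_succ, pow_two]
  rw [e, ← map_one (pr : SL2 F →* PS F)]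
  have h11 : Z 1 1 = 1 - Z 0 0 := by linear_combination h
  rw [h11] at hd
  refine brp_eq (-1) (by ring) ?_ ?_ ?_ ?_
  · rw [brp_one00, mul_00, mul_00, mul_01, h11]
    linear_combination (-(Z 0 0) - 1) * hd
  · rw [brp_one01, mul_01, mul_00, mul_01, h11]
    linear_combination (-(Z 0 1)) * hd
  · rw [brp_one10, mul_10, mul_10, mul_11, h11]
    linear_combination (-(Z 1 0)) * hd
  · rw [brp_one11, mul_11, mul_10, mul_11, h11]
    linear_combination (-(1 - Z 0 0) - 1) * hd

/-- an element of trace zero is a projective involution -/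
theorem brp_sq {F : Type} [Field F] (Z : SL2 F) (h : Z 0 0 + Z 1 1 = 0) : pr Z * pr Z = 1 := by
  have hd := sl_det Z
  rw [← map_mul, ← map_one (pr : SL2 F →* PS F)]
  have h11 : Z 1 1 = - Z 0 0 := by linear_combination h
  rw [h11] at hd
  refine brp_eq (-1) (by ring) ?_ ?_ ?_ ?_
  · rw [brp_one00, mul_00]
    linear_combination -hd
  · rw [brp_one01, mul_01, h11]
    ring
  · rw [brp_one10, mul_10, h11]
    ring
  · rw [brp_one11, mul_11, h11]
    linear_combination -hd

/-- powers of the companion matrix -/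
theorem brp_pow {F : Type} [Field F] (t : F) (n : ℕ) : ∃ α β : F,
    (mk2 0 (-1) 1 t (by ring) ^ n : SL2 F) 0 0 = β ∧
    (mk2 0 (-1) 1 t (by ring) ^ n : SL2 F) 0 1 = -α ∧
    (mk2 0 (-1) 1 t (by ring) ^ n : SL2 F) 1 0 = α ∧
    (mk2 0 (-1) 1 t (by ring) ^ n : SL2 F) 1 1 = α * t + β := by
  induction n with
  | zero =>
    refine ⟨0, 1, ?_, ?_, ?_, ?_⟩
    · rw [pow_zero]; rfl
    · rw [pow_zero, brp_one01, neg_zero]
    · rw [pow_zero]; rfl
    · rw [pow_zero, brp_one11]; ring
  | succ n ih =>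
    obtain ⟨α, β, h00, h01, h10, h11⟩ := ih
    refine ⟨α * t + β, -α, ?_, ?_, ?_, ?_⟩
    · rw [pow_succ, mul_00, h00, h01, mk2_00, mk2_10]; ring
    · rw [pow_succ, mul_01, h00, h01, mk2_01, mk2_11]; ring
    · rw [pow_succ, mul_10, h10, h11, mk2_00, mk2_10]; ring
    · rw [pow_succ, mul_11, h10, h11, mk2_01, mk2_11]; ring

/-- two elements of coprime exponents -/
theorem brp_odd {G : Type} [Group G] {g : G} {p c : ℕ} (hp : p.Prime) (hp2 : p ≠ 2)
    (h1 : g ^ (p ^ c) = 1) (h2 : g ^ 2 = 1) : g = 1 := by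
  have h3 : orderOf g ∣ p ^ c := orderOf_dvd_of_pow_eq_one h1
  have h4 : orderOf g ∣ 2 := orderOf_dvd_of_pow_eq_one h2
  have hcop : Nat.Coprime (p ^ c) 2 := by
    apply Nat.Coprime.pow_left
    exact (Nat.coprime_primes hp Nat.prime_two).mpr hp2
  have h5 : orderOf g ∣ 1 := by
    rw [← hcop]
    exact Nat.dvd_gcd h3 h4
  exact orderOf_eq_one_iff.mp (Nat.dvd_one.mp h5)

theorem brp_thm (hNRM : NRMStmt) (hTRC : TRCStmt) : BRPStmt := by
  intro F _ _ p c d t hp hp2 hc ht hex hord hG
  by_contra hdv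
  -- the matrix A
  have hD : (4 : F) - t * t ≠ 0 := fun h => ht (by linear_combination -h)
  obtain ⟨X, W0, hXW⟩ := hNRM F (-t) ((t * t - 3) / (4 - t * t)) (by
    intro h; apply ht; linear_combination h)
  obtain ⟨x, w, hxw⟩ : ∃ x w : F, x * x + w * w - t * x * w - w + 1 = 0 := by
    obtain ⟨k, hk⟩ : ∃ k : F, k * (4 - t * t) = 1 := ⟨(4 - t * t)⁻¹, inv_mul_cancel₀ hD⟩
    have hXW' : X * X + -t * X * W0 + W0 * W0 = (t * t - 3) * k := by
      rw [hXW, div_eq_iff hD, mul_assoc, hk, mul_one]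
    exact ⟨X + t * k, W0 + 2 * k, by linear_combination hXW' + (k + W0 - 1) * hk⟩
  obtain ⟨A, hA00, hA01, hA10, hA11⟩ : ∃ A : SL2 F, A 0 0 = x ∧ A 0 1 = 1 - w + x * t ∧
      A 1 0 = -w ∧ A 1 1 = -x :=
    ⟨mk2 x (1 - w + x * t) (-w) (-x) (by linear_combination -hxw), rfl, rfl, rfl, rfl⟩
  obtain ⟨M, hM⟩ : ∃ M : SL2 F, M = mk2 0 (-1) 1 t (by ring) := ⟨_, rfl⟩
  rw [← hM] at hord
  have hM00 : M 0 0 = 0 := by rw [hM]; rfl
  have hM01 : M 0 1 = -1 := by rw [hM]; rfl
  have hM10 : M 1 0 = 1 := by rw [hM]; rfl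
  have hM11 : M 1 1 = t := by rw [hM]; rfl
  obtain ⟨a, ha⟩ : ∃ a : PS F, a = pr A := ⟨_, rfl⟩
  obtain ⟨y, hy⟩ : ∃ y : PS F, y = pr M := ⟨_, rfl⟩
  rw [← hy] at hord
  have haa : a * a = 1 := by
    rw [ha]; exact brp_sq A (by rw [hA00, hA11]; ring)
  have hay : (a * y) ^ 3 = 1 := by
    rw [ha, hy, ← map_mul]
    apply brp_cube
    rw [mul_00, mul_11, hA00, hA01, hA10, hA11, hM00, hM01, hM10, hM11]
    ring
  have htre := trefoil_rel haa hay
  obtain ⟨c', rfl⟩ : ∃ c', c = c' + 1 := ⟨c - 1, by omega⟩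
  have hyo : y ^ (p ^ (c' + 1)) = 1 := by rw [← hord]; exact pow_orderOf_eq_one y
  have hconj : ∀ (n : ℕ) (z : PS F), ((MulAut.conj y⁻¹) ^ ((p : ℤ) ^ n)) z =
      (y ^ (p ^ n))⁻¹ * z * y ^ (p ^ n) := by
    intro n z
    have e : (MulAut.conj y⁻¹) ^ ((p : ℤ) ^ n) = MulAut.conj ((y ^ (p ^ n))⁻¹) := by
      rw [← Nat.cast_pow, zpow_natCast, ← map_pow, inv_pow]
    rw [e, MulAut.conj_apply, inv_inv]
  have hrel := L.rel (hG.sl y).1 hp (x := a * (y⁻¹ * a * y)) (N := c' + 1) (by
      rw [hconj, hyo]; group) (j := 1) one_pos (i := 2) (by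
      rw [Function.iterate_one]
      have e2 : (MulAut.conj y⁻¹) ^ (2 : ℤ) = MulAut.conj ((y ^ 2)⁻¹) := by
        rw [show (2 : ℤ) = ((2 : ℕ) : ℤ) by rfl, zpow_natCast, ← map_pow, inv_pow]
      rw [e2, MulAut.conj_apply, inv_inv]
      unfold ef
      rw [MulAut.conj_apply, inv_inv]
      exact htre) (by
      intro h
      have h2 : p ∣ 2 := by exact_mod_cast h
      exact hp2 ((Nat.prime_dvd_prime_iff_eq hp Nat.prime_two).mp h2)) (a := c') hdv
  rw [hconj] at hrel
  obtain ⟨v, hv⟩ : ∃ v : PS F, v = y ^ (p ^ c') := ⟨_, rfl⟩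
  rw [← hv] at hrel
  have hvx : v * (a * (y⁻¹ * a * y)) = (a * (y⁻¹ * a * y)) * v := by
    have := congrArg (fun g => v * g) hrel
    simp only [← mul_assoc, mul_inv_cancel, one_mul] at this
    simp only [← mul_assoc]
    exact this.symm
  have hvy : v * y = y * v := by
    rw [hv, ← pow_succ, ← pow_succ']
  have hva : v * a = a * v := hTRC (PS F) a y v haa hay hvy hvx
  have hv1 : v ≠ 1 := by
    intro h
    rw [hv] at h
    have h2 := orderOf_dvd_of_pow_eq_one h
    rw [hord] at h2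
    have h3 := Nat.le_of_dvd (pow_pos hp.pos _) h2
    exact absurd h3 (not_le.mpr (Nat.pow_lt_pow_right hp.one_lt (Nat.lt_succ_self _)))
  have hvp : v ^ (p ^ 1) = 1 := by
    rw [hv, ← pow_mul, pow_one, ← pow_succ, hyo]
  -- the matrix of v
  obtain ⟨α, β, h00, h01, h10, h11⟩ := brp_pow t (p ^ c')
  rw [← hM] at h00 h01 h10 h11
  obtain ⟨V, hV⟩ : ∃ V : SL2 F, V = M ^ (p ^ c') := ⟨_, rfl⟩
  rw [← hV] at h00 h01 h10 h11
  have hvV : v = pr V := by rw [hv, hy, hV, map_pow]
  have hdV := sl_det V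
  rw [h00, h01, h10, h11] at hdV
  have hα : α ≠ 0 := by
    intro h
    apply hv1
    rw [hvV, ← map_one (pr : SL2 F →* PS F)]
    rw [h] at hdV
    refine brp_eq β (by linear_combination hdV) ?_ ?_ ?_ ?_
    · rw [brp_one00, h00]; linear_combination -hdV
    · rw [brp_one01, h01, h]; ring
    · rw [brp_one10, h10, h]; ring
    · rw [brp_one11, h11, h]; linear_combination -hdV
  rw [hvV, ha, ← map_mul, ← map_mul, pr_eq_iff] at hva
  obtain ⟨r, hr, hAV⟩ := hva
  have e00 := hAV 0 0
  have e01 := hAV 0 1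
  have e10 := hAV 1 0
  have e11 := hAV 1 1
  rw [mul_00, mul_00, h00, h01, h10, hA00, hA01, hA10] at e00
  rw [mul_01, mul_01, h00, h01, h11, hA00, hA01, hA11] at e01
  rw [mul_10, mul_10, h00, h10, h11, hA00, hA10, hA11] at e10
  rw [mul_11, mul_11, h01, h10, h11, hA01, hA10, hA11] at e11
  have hr' : (r - 1) * (r + 1) = 0 := by linear_combination hr
  -- the case r = 1
  have case1 : r = 1 → False := by
    intro h
    rw [h] at e00 e01 e10 e11
    have f1 : 1 - w + x * t = w := by
      apply mul_left_cancel₀ hα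
      linear_combination e00
    have f2 : w * t = 2 * x := by
      apply mul_left_cancel₀ hα
      linear_combination e10
    have hcom : a * y = y * a := by
      rw [ha, hy, ← map_mul, ← map_mul]
      congr 1
      apply sl_ext
      · rw [mul_00, mul_00, hA00, hA01, hA10, hM00, hM01, hM10]
        linear_combination f1
      · rw [mul_01, mul_01, hA00, hA01, hA11, hM00, hM01, hM11]
        linear_combination t * f1 + f2
      · rw [mul_10, mul_10, hA00, hA10, hA11, hM00, hM10, hM11]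
        linear_combination f2
      · rw [mul_11, mul_11, hA01, hA10, hA11, hM01, hM10, hM11]
        linear_combination -f1
    have hcm : Commute a y := hcom
    rw [hcm.mul_pow] at hay
    have h7 : a ^ 3 = a := by rw [pow_succ, pow_two, haa, one_mul]
    rw [h7] at hay
    have hai : a⁻¹ = a := inv_eq_of_mul_eq_one_left haa
    have h8 : y ^ 3 = a := by
      rw [← hai]; exact eq_inv_of_mul_eq_one_right hay
    have h9 : y ^ 3 = 1 := by
      apply brp_odd (c := c' + 1) hp hp2
      · rw [← pow_mul, mul_comm, pow_mul, hyo, one_pow]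
      · rw [h8, pow_two, haa]
    have h10' : (pr A : PS F) = pr (1 : SL2 F) := by
      rw [map_one, ← ha, ← h8, h9]
    rw [pr_eq_iff] at h10'
    obtain ⟨s, hs, hsA⟩ := h10'
    have s00 := hsA 0 0
    have s01 := hsA 0 1
    have s10 := hsA 1 0
    have s11 := hsA 1 1
    rw [brp_one00, hA00] at s00
    rw [brp_one01, hA01] at s01
    rw [brp_one10, hA10] at s10
    rw [brp_one11, hA11] at s11
    have hs0 : s ≠ 0 := by
      intro h0; rw [h0] at hs; simp at hs
    have hw0 : w = 0 := by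
      apply mul_left_cancel₀ hs0
      linear_combination s10
    have hx2 : (2 : F) = 0 := by linear_combination s00 + s11
    apply hex
    have hx1 : x * x = 1 := by
      rw [hw0] at hxw
      linear_combination hxw - hx2
    have hx1' : x = 1 := by
      have : (x - 1) * (x - 1) = 0 := by linear_combination hx1 + (1 - x) * hx2
      exact sub_eq_zero.mp (mul_self_eq_zero.mp this)
    have h0 : 1 - w + x * t = 0 := by
      apply mul_left_cancel₀ hs0
      linear_combination -s01
    rw [hw0, hx1'] at h0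
    exact ⟨by linear_combination h0 - hx2, hx2⟩
  by_cases h2 : (2 : F) = 0
  · apply case1
    have : (r - 1) * (r - 1) = 0 := by linear_combination hr + (1 - r) * h2
    exact sub_eq_zero.mp (mul_self_eq_zero.mp this)
  · rcases mul_eq_zero.mp hr' with h | h
    · exact case1 (sub_eq_zero.mp h)
    · have hr1 : r = -1 := by linear_combination h
      rw [hr1] at e00 e01 e10 e11
      have hT : α * t + 2 * β = 0 := by
        by_contra hT
        have g1 : w = 0 := by
          apply mul_left_cancel₀ hT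
          linear_combination -e10
        have g2 : 1 - w + x * t = 0 := by
          apply mul_left_cancel₀ hT
          linear_combination e01
        have g3 : x = 0 := by
          apply mul_left_cancel₀ hT
          apply mul_left_cancel₀ h2
          linear_combination e00 - e11
        rw [g1, g3] at hxw
        simp at hxw
      apply hv1
      apply brp_odd (c := 1) hp hp2 hvp
      rw [pow_two, hvV]
      exact brp_sq V (by rw [h00, h11]; linear_combination hT)

end Pool.ENR
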